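import Pool.Agent.Run7.h89.P21.M6
import Pool.Agent.Run7.h209.P21.Per

/-!
# Project P21, piece PER of M6 (level 21)
-/

set_option autoImplicit false

open MeasureTheory

namespace Run7.h209.P21

/-- **PER** -/
theorem s_per : Run7.h89.P21.S_PER := by
  intro L Op Om h1 h2 g2 g3 hL n hn
  have h := per L Op Om h1 h2 g2 g3 hL n hn
  exact h

end Run7.h209.P21
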