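import Pool.Agent.Run7.h741.MG.Stm
import Pool.Agent.Run7.h209.P15.Hasse
import Pool.Agent.Run7.h209.P15.CpGen
import Pool.Agent.Run7.h209.P15.E21

/-!
# Project P21: the statements `S_TORS`, `S_LAT`, `S_CP`, `S_HASSE`, `S_FOUR`, `S_MIN` of `Run7/h741/MG/Stm.lean`
-/

set_option autoImplicit false

open Filter Topology

namespace Run7.h209.P21

open Pool.Agent.Run7.h741

theorem m_tors : MG.S_TORS := by
  rintro L h2 h3 u hu (hP | hP)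
  · exact Run7.h209.P15.tors21 L h2 h3 u hu hP
  · exact Run7.h209.P15.tors21' L h2 h3 u hu hP

theorem m_lat : MG.S_LAT := Run7.h209.P15.lat21

theorem m_hasse : MG.S_HASSE := by
  intro p _ hp φ ξ σ hξ hσ h1 h2
  refine Run7.h209.P15.hasse MG.E21 (-2) p hp φ ξ σ hξ hσ h1 ?_
  rw [h2]
  have hA : (MG.E21.b₂ + 12 * (-2) : ℤ) = -23 := by
    simp [WeierstrassCurve.b₂, MG.E21]
  have hB : (12 * (-2) ^ 2 + 2 * MG.E21.b₂ * (-2) + 2 * MG.E21.b₄ : ℤ) = 28 := by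
    simp [WeierstrassCurve.b₂, WeierstrassCurve.b₄, MG.E21]
  have hC : (4 * (-2) ^ 3 + MG.E21.b₂ * (-2) ^ 2 + 2 * MG.E21.b₄ * (-2) + MG.E21.b₆ : ℤ) = 0 := by
    simp [WeierstrassCurve.b₂, WeierstrassCurve.b₄, WeierstrassCurve.b₆, MG.E21]
  rw [hA, hB, hC]
  have e1 : (((-23 : ℤ)) : ZMod p) = -23 := by push_cast; ring
  have e2 : (((28 : ℤ)) : ZMod p) = 28 := by push_cast; ring
  rw [e1, e2, Int.cast_zero, map_zero, map_neg, map_ofNat, map_ofNat]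
  ring

theorem m_eight (p : ℕ) (hp : p.Prime) (h2 : p ≠ 2) (h3 : p ≠ 3) (h7 : p ≠ 7) :
    8 ∣ Pool.Agent.W97.MT.affCount MG.E21 p + 1 := Run7.h209.P15.eight21 p hp h2 h3 h7

theorem m_four : MG.S_FOUR := by
  intro p hp h2 h3 h7
  exact Dvd.dvd.trans (by norm_num) (m_eight p hp h2 h3 h7)

theorem m_min : MG.S_MIN := ⟨Run7.h209.P15.inv21.2.2.2.1, Run7.h209.P15.inv21.2.2.2.2.1,
  Run7.h209.P15.inv21.2.2.2.2.2.1, Run7.h209.P15.inv21.2.2.2.2.2.2⟩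

theorem m_cp : MG.S_CP := by
  intro g hd hinv h1 h2 h3 h4
  refine Run7.h209.P15.cp_gen 3 7 (by norm_num) (by norm_num) (by norm_num) (-2) 1 g hd ?_ h1 ?_ ?_ ?_
  · intro a b c d h z hz
    have h5 := hinv a b c d (by push_cast at h; linear_combination h) z hz
    rw [← h5]
    have e : (((3 : ℕ) : ℂ) * ((7 : ℕ) : ℂ) * c * z + d) = 21 * c * z + d := by push_cast; ring
    rw [e]
  · obtain ⟨B, T, hT, hB⟩ := h2
    refine ⟨B, T, hT, fun z hz => ?_⟩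
    have e : (((3 : ℕ) : ℂ) * ((7 : ℕ) : ℂ) * z) = 21 * z := by push_cast; ring
    rw [e]
    exact hB z hz
  · obtain ⟨B, T, hT, hB⟩ := h3
    refine ⟨B, T, hT, fun z hz => ?_⟩
    have e : (((3 : ℕ) : ℂ) * ((7 : ℕ) : ℂ) * z - (((3 : ℕ) : ℂ) * ((-2 : ℤ) : ℂ) - 1)) = 21 * z + 7 := by
      push_cast; ring
    have e' : (((7 : ℕ) : ℂ) * z - ((-2 : ℤ) : ℂ)) = 7 * z + 2 := by push_cast; ring
    rw [e, e']
    exact hB z hz
  · obtain ⟨B, T, hT, hB⟩ := h4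
    refine ⟨B, T, hT, fun z hz => ?_⟩
    have e : (((3 : ℕ) : ℂ) * ((7 : ℕ) : ℂ) * z - (((7 : ℕ) : ℂ) * ((1 : ℤ) : ℂ) - 1)) = 21 * z - 6 := by
      push_cast; ring
    have e' : (((3 : ℕ) : ℂ) * z - ((1 : ℤ) : ℂ)) = 3 * z - 1 := by push_cast; ring
    rw [e, e']
    exact hB z hz

end Run7.h209.P21
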